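import Pool.Agent.Helper86.AP.Goals
import Pool.Agent.Helper35.PP.Surgery

/-!
# Project AP, packet PRI: words in which a letter occurs exactly once are primitive
-/

set_option autoImplicit false

namespace Pool.Agent.Helper85.AP

open FreeGroup Pool.Agent.Helper35.PP Pool.Agent.Helper86.AP

theorem split_once {β : Type} (p : β → Bool) (c : List β) (h : c.countP p = 1) :
    ∃ (u : List β) (x : β) (v : List β), c = u ++ x :: v ∧ p x = true ∧
      (∀ y ∈ u, p y = false) ∧ ∀ y ∈ v, p y = false := by
  induction c with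
  | nil => simp at h
  | cons a c ih =>
    by_cases ha : p a = true
    · rw [List.countP_cons_of_pos ha] at h
      have h0 : c.countP p = 0 := by omega
      rw [List.countP_eq_zero] at h0
      exact ⟨[], a, c, rfl, ha, by simp, fun y hy => by simpa using h0 y hy⟩
    · rw [List.countP_cons_of_neg ha] at h
      obtain ⟨u, x, v, hc, hx, hu, hv⟩ := ih h
      refine ⟨a :: u, x, v, by rw [hc]; rfl, hx, ?_, hv⟩
      intro y hy
      rcases List.mem_cons.1 hy with rfl | hy
      · simpa using ha
      · exact hu y hy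

theorem mk_mem {α : Type} [DecidableEq α] (i : α) (u : List (α × Bool))
    (hu : ∀ y ∈ u, y.1 ≠ i) : FreeGroup.mk u ∈ ZS i := by
  intro p hp
  rw [FreeGroup.toWord_mk] at hp
  exact hu p ((FreeGroup.reduce.red (L := u)).sublist.subset hp)

/-- inversion of one generator -/
def sg {α : Type} [DecidableEq α] (i : α) : FreeGroup α →* FreeGroup α :=
  FreeGroup.lift (fun j => if j = i then (of i)⁻¹ else of j)

theorem sg_sg {α : Type} [DecidableEq α] (i : α) (g : FreeGroup α) : sg i (sg i g) = g := by
  have h : (sg i).comp (sg i) = MonoidHom.id (FreeGroup α) := by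
    apply FreeGroup.ext_hom
    intro j
    by_cases h : j = i
    · subst h
      simp [sg]
    · simp [sg, h]
  have h2 := congrArg (fun F : FreeGroup α →* FreeGroup α => F g) h
  exact h2

def sgE {α : Type} [DecidableEq α] (i : α) : FreeGroup α ≃* FreeGroup α :=
  { sg i with
    toFun := sg i
    invFun := sg i
    left_inv := sg_sg i
    right_inv := sg_sg i }

theorem sgE_of {α : Type} [DecidableEq α] (i : α) : sgE i (of i) = (of i)⁻¹ := by
  change sg i (of i) = _
  simp [sg]

/-- PACKET PRI -/
theorem tPRI : Pool.Agent.Helper86.AP.S_PRI := by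
  intro α _ i c hc
  obtain ⟨u, x, v, rfl, hx, hu, hv⟩ := split_once _ c hc
  have hu' : FreeGroup.mk u ∈ ZS i := mk_mem i u (fun y hy => by simpa using hu y hy)
  have hv' : FreeGroup.mk v ∈ ZS i := mk_mem i v (fun y hy => by simpa using hv y hy)
  obtain ⟨j, s⟩ := x
  have hj : j = i := by simpa using hx
  subst hj
  have hmk : FreeGroup.mk (u ++ (j, s) :: v) = FreeGroup.mk u * el (j, s) * FreeGroup.mk v := by
    rw [el, FreeGroup.mul_mk, FreeGroup.mul_mk]
    simp
  rw [hmk]
  cases s
  · refine ⟨(sgE j).trans (thetaE j (FreeGroup.mk v)⁻¹ (FreeGroup.mk u)⁻¹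
      ((ZS j).inv_mem hv') ((ZS j).inv_mem hu')), j, ?_⟩
    rw [MulEquiv.trans_apply, sgE_of, thetaE_apply, _root_.map_inv, theta_of_self, el_false]
    group
  · refine ⟨thetaE j (FreeGroup.mk u) (FreeGroup.mk v) hu' hv', j, ?_⟩
    rw [thetaE_apply, theta_of_self, el_true]

end Pool.Agent.Helper85.AP
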